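import Pool.Agent.Run7.h197.U.Count

/-!
# Polynomials `a z ^ d + g(z)` of large degree over all number fields of bounded degree

Let `D`, `M ≥ 1` and `k` be given. There are `d₀` and `Λ` such that the following holds for ALL number
fields `K` of degree at most `D`, ALL `d ≥ d₀`, ALL finite sets `S` of prime ideals of `K` with
`Λ ∑_{v ∈ S} N(v) ≤ d`, and ALL polynomials `f = a z ^ d + g(z)` over `K` with `a ≠ 0` and `deg g ≤ k`
for which the constant term `g₀` dominates at the archimedean places and at the places in `S`: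
if `H_S` is the part of the height given by these places and

`H(a) H(g₀) ⋯ H(g_k) ≤ H_S(g₀) ^ M`,  `(H_S(g₁) ⋯ H_S(g_k)) ^ M ≤ H_S(g₀) ^ (M - 1)`,

then either all preperiodic points of `f` in `K` have the same `d`-th power, or all of them are `0` or
roots of unity. In particular `f` has at most `w + 1` preperiodic points in `K`, where `w` is the number
of roots of unity in `K`; it is bounded in terms of `D`.

For `f = z ^ d + c` the hypotheses hold (`M = 1`, `k = 0`) for ALL `S`-integers `c` in `K`. So for all
`d ≥ d₀(D)`, all `K` of degree at most `D` and all algebraic integers `c` in `K`, or all `S`-integers with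
`Λ ∑_{v ∈ S} N(v) ≤ d`, there are at most `w + 1` preperiodic points of `z ^ d + c` in `K`. This is sharp
(`c = 0`).

Proof. The heights of the preperiodic points are at most `H(g₀) ^ (C / d)`. If `y`, `z` are
preperiodic, then `a (z ^ d - y ^ d) = (f(z) - f(y)) - …` is small at the places considered compared
with `a y ^ d`, which is about `- g₀`; so `(z / y) ^ d - 1` is small at these places, altogether at most
a power of `H_S(g₀) ^ (- 1 / M)`. But for `z ^ d ≠ y ^ d` it is at least `exp (- ε d (1 + log H(z / y)))`: at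
archimedean places by a lower bound for linear forms in logarithms which depends only on the
degree of the field (`Pool/Agent/Run7/h197/U/Uniform.lean`, `Pow.lean`), at `v ∈ S` since
`(z / y) ^ N(v) - 1` is not small. Therefore the heights of `y` and `z` are so close to `1` that both are
roots of unity, by Northcott's theorem for points of bounded degree.
-/

set_option autoImplicit false

namespace Pool.Agent.Results.MP_90787a_nt.DominantConstantTerm

open NumberField Height IsDedekindDomain Polynomial

/-- the polynomial map `z ↦ a z ^ d + g(z)` -/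
noncomputable def poly {K : Type} [Field K] (a : K) (g : K[X]) (d : ℕ) (z : K) : K :=
  a * z ^ d + g.eval z

/-- the elements of `K` with finite forward orbit -/
def preperiodic {K : Type} [Field K] (f : K → K) : Set K := {z | (Set.range fun n : ℕ => f^[n] z).Finite}

/-- the roots of unity in `K` -/
def rootsOfOne (K : Type) [Field K] : Set K := {ζ | ∃ n : ℕ, 1 ≤ n ∧ ζ ^ n = 1}

/-- the part of the height of `x` (relative to `K`, as Mathlib's `Height.mulHeight₁`) which comes from
the archimedean places and from the places in `S` -/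
noncomputable def partHeight {K : Type} [Field K] [NumberField K] (S : Finset (HeightOneSpectrum (𝓞 K)))
    (x : K) : ℝ :=
  (∏ w : InfinitePlace K, max (w x) 1 ^ w.mult) * ∏ v ∈ S, max (FinitePlace.mk v x) 1

/-- the constant term dominates at the archimedean places and at the places in `S` -/
def Dominant {K : Type} [Field K] [NumberField K] (M k : ℕ) (S : Finset (HeightOneSpectrum (𝓞 K)))
    (a : K) (g : K[X]) : Prop :=
  mulHeight₁ a * ∏ j ∈ Finset.range (k + 1), mulHeight₁ (g.coeff j) ≤ partHeight S (g.coeff 0) ^ M ∧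
    (∏ j ∈ Finset.range k, partHeight S (g.coeff (j + 1))) ^ M ≤ partHeight S (g.coeff 0) ^ (M - 1)

/-- the conclusion: all elements of `P` have the same `d`-th power, or all are zero or roots of unity -/
def Rigid {K : Type} [Field K] (d : ℕ) (P : Set K) : Prop :=
  (∀ y ∈ P, ∀ z ∈ P, y ^ d = z ^ d) ∨ (∀ y ∈ P, y = 0 ∨ y ∈ rootsOfOne K)

/-- **preperiodic points of polynomials of large degree with dominating constant term**, uniformly
in all number fields of degree at most `D`, and the case of `z ^ d + c` for `S`-integers `c` -/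
theorem result (D : ℕ) :
    (∀ M k : ℕ, 1 ≤ M → ∃ d₀ Λ : ℕ, ∀ (K : Type) [Field K] [NumberField K],
      Module.finrank ℚ K ≤ D → ∀ (S : Finset (HeightOneSpectrum (𝓞 K))) (d : ℕ), d₀ ≤ d →
      Λ * ∑ v ∈ S, Ideal.absNorm v.asIdeal ≤ d → ∀ (a : K) (g : K[X]), a ≠ 0 → g.natDegree ≤ k →
      Dominant M k S a g → Rigid d (preperiodic (poly a g d)) ∧
        (preperiodic (poly a g d)).encard ≤ (rootsOfOne K).encard + 1) ∧
    (∃ d₀ Λ : ℕ, ∀ (K : Type) [Field K] [NumberField K],
      Module.finrank ℚ K ≤ D → ∀ (S : Finset (HeightOneSpectrum (𝓞 K))) (d : ℕ), d₀ ≤ d →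
      Λ * ∑ v ∈ S, Ideal.absNorm v.asIdeal ≤ d → ∀ c : K, (∀ v ∉ S, FinitePlace.mk v c ≤ 1) →
      Rigid d (preperiodic fun z : K => z ^ d + c) ∧
        (preperiodic fun z : K => z ^ d + c).encard ≤ (rootsOfOne K).encard + 1) ∧
    (∃ B : ℕ, ∀ (K : Type) [Field K] [NumberField K], Module.finrank ℚ K ≤ D →
      (rootsOfOne K).encard ≤ B) := by
  have main : ∀ M k : ℕ, 1 ≤ M → ∃ d₀ Λ : ℕ, ∀ (K : Type) [Field K] [NumberField K],
      Module.finrank ℚ K ≤ D → ∀ (S : Finset (HeightOneSpectrum (𝓞 K))) (d : ℕ), d₀ ≤ d →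
      Λ * ∑ v ∈ S, Ideal.absNorm v.asIdeal ≤ d → ∀ (a : K) (g : K[X]), a ≠ 0 → g.natDegree ≤ k →
      Dominant M k S a g → Rigid d (preperiodic (poly a g d)) ∧
        (preperiodic (poly a g d)).encard ≤ (rootsOfOne K).encard + 1 := by
    intro M k hM
    obtain ⟨d₀, Λ, h⟩ := Run7.h197.U.poly_main D M k hM
    refine ⟨d₀ + 1, Λ, ?_⟩
    intro K _ _ hK S d hd hΛ a g ha hg hdom
    have h1 := h K hK S d (by omega) hΛ a g ha hg hdom.1 hdom.2
    exact ⟨h1, Run7.h197.U.count _ (by omega : 1 ≤ d) h1⟩
  refine ⟨main, ?_, ?_⟩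
  · obtain ⟨d₀, Λ, h⟩ := main 1 0 le_rfl
    refine ⟨d₀, Λ, ?_⟩
    intro K _ _ hK S d hd hΛ c hc
    have h1 := h K hK S d hd hΛ 1 (C c) one_ne_zero (by simp) (by
      refine ⟨?_, by simp⟩
      rw [pow_one, Finset.prod_range_one, mulHeight₁_one, one_mul, coeff_C_zero,
        Run7.h197.U.HS_of_integral S c hc]
      exact le_rfl)
    have e1 : poly (1 : K) (C c) d = fun z : K => z ^ d + c := by
      funext z
      unfold poly
      rw [one_mul, eval_C]
    rw [e1] at h1
    exact h1
  · exact Run7.h197.U.mu_bound D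

end Pool.Agent.Results.MP_90787a_nt.DominantConstantTerm
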