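import Mathlib
import Pool.Agent.Run7.h830.SF.Fam

/-!
# Preperiodic points of bounded degree of 100% of the members of every non-isotrivial family of
rational maps over a number field

A family of rational maps of degree `d` over a number field `k` with the parameters `t_1, ..., t_m` is
isotrivial if over an algebraic closure of `k(t_1, ..., t_m)` it is conjugate to a map with coefficients
algebraic over `k`. For all other families, of all degrees, over all number fields of all degrees, the
number of the preperiodic points of degree at most `B` over `k` is at most a number which depends on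
nothing but `B` and `d`, for all members outside of a pronull set of parameters, in particular for 100%
of the members in boxes and for 100% of the members along almost every random orbit of a (thin) group.

Proof. If the family is isotrivial over `k(t_j : j ≠ i)` for every `i` then it is isotrivial: a rational
map over an algebraically closed field has large finite stable sets of preperiodic points, their cross
ratios are algebraic over `k(t_j : j ≠ i)` for every `i`, hence over `k`, and they determine the map
(`Pool/Agent/Run7/h830/SF`). For the function field of one variable over `k(t_j : j ≠ i)` the bound is the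
theorem `Pool.Agent.Q103.FS.bdg` of the starting files, and the transfer from the generic member to the
members is the one of `Pool.Agent.N820.SU.Fam`, `Pool.Agent.N891.OR.Fam`, `Pool.Agent.Y706`.
-/

set_option autoImplicit false

namespace Pool.Agent.Results.MP_90787a_nt.EveryFamily

open Polynomial NumberField Filter Topology MeasureTheory
open Pool.Agent.N24.RW (ProNull Walk orb words)

/-- The self-map of the projective line `K ∪ {∞}`, where `none` is `∞`, given by the rational
function `p / q`, where `p` and `q` are coprime and `d` is the larger of their degrees: it sends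
`x` to `p(x) / q(x)`, or to `∞` when `q(x) = 0`, and it sends `∞` to the quotient of the
coefficients of degree `d`, or to `∞` when that of `q` is zero. -/
noncomputable def mapP1 {K : Type*} [Field K] (p q : K[X]) (d : ℕ) : Option K → Option K
  | some x => by classical exact if q.eval x = 0 then none else some (p.eval x / q.eval x)
  | none => by classical exact if q.coeff d = 0 then none else some (p.coeff d / q.coeff d)

/-- With `φ(x) = (a x + b) / (c x + e)`, the map `p / q` of degree `d` satisfies
`φ ∘ (p / q) = (u / w) ∘ φ` for some `a, b, c, e` in `K` with `a e ≠ b c` and some polynomials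
`u, w` of degree at most `d`, not both zero, with coefficients algebraic over `F`; the equation is
written with denominators cleared. -/
def IsotrivialOver (F : Type*) {K : Type*} [Field F] [Field K] [Algebra F K] (p q : K[X])
    (d : ℕ) : Prop :=
  ∃ a b c e : K, a * e - b * c ≠ 0 ∧ ∃ u w : K[X], (u ≠ 0 ∨ w ≠ 0) ∧
    u.natDegree ≤ d ∧ w.natDegree ≤ d ∧ (∀ n, IsAlgebraic F (u.coeff n)) ∧
    (∀ n, IsAlgebraic F (w.coeff n)) ∧
    (C a * p + C b * q) * ∑ i ∈ Finset.range (d + 1),
      C (w.coeff i) * (C a * X + C b) ^ i * (C c * X + C e) ^ (d - i) =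
    (C c * p + C e * q) * ∑ i ∈ Finset.range (d + 1),
      C (u.coeff i) * (C a * X + C b) ^ i * (C c * X + C e) ^ (d - i)

/-- The field `k(t_1, ..., t_m)`. -/
abbrev RF (k : Type) [Field k] (m : ℕ) : Type := FractionRing (MvPolynomial (Fin m) k)

/-- `P ∈ k[t_1, ..., t_m][x]` as a polynomial over `k(t_1, ..., t_m)`. -/
noncomputable def generic {k : Type} [Field k] {m : ℕ} (P : (MvPolynomial (Fin m) k)[X]) :
    (RF k m)[X] :=
  P.map (algebraMap (MvPolynomial (Fin m) k) (RF k m))

/-- `P ∈ k[t_1, ..., t_m][x]` as a polynomial over an algebraic closure of `k(t_1, ..., t_m)`. -/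
noncomputable def genBar {k : Type} [Field k] {m : ℕ} (P : (MvPolynomial (Fin m) k)[X]) :
    (AlgebraicClosure (RF k m))[X] :=
  (generic P).map (algebraMap (RF k m) (AlgebraicClosure (RF k m)))

/-- The specialisation of `P ∈ k[t_1, ..., t_m][x]` at `t = (v_1 / v_0, ..., v_m / v_0)`. -/
noncomputable def special {k : Type} [Field k] {m : ℕ} (v : Fin (m + 1) → 𝓞 k)
    (P : (MvPolynomial (Fin m) k)[X]) : k[X] :=
  P.map (MvPolynomial.eval fun l : Fin m =>
    algebraMap (𝓞 k) k (v l.succ) / algebraMap (𝓞 k) k (v 0))

/-- The preperiodic points of degree at most `B` over `k` of the map `p / q` of degree `d`, in the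
projective line over an algebraic closure of `k`. -/
noncomputable def preper {k : Type} [Field k] (p q : k[X]) (d B : ℕ) :
    Set (Option (AlgebraicClosure k)) :=
  {z | (Set.range fun n : ℕ => (mapP1 (p.map (algebraMap k (AlgebraicClosure k)))
      (q.map (algebraMap k (AlgebraicClosure k))) d)^[n] z).Finite ∧
    ∀ x, z = some x → (minpoly k x).natDegree ≤ B}

/-- The vectors of integers of `k` whose coordinates with respect to the basis `ω` are at most `H`
in absolute value. -/
def box {k : Type} [Field k] {J : Type} (ω : Module.Basis J ℤ (𝓞 k)) (m H : ℕ) :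
    Set (Fin (m + 1) → 𝓞 k) :=
  {v | ∀ l j, |ω.repr (v l) j| ≤ (H : ℤ)}

/-- The set `S` contains 100% of the vectors in the boxes. -/
def AlmostAll {k : Type} [Field k] {J : Type} (ω : Module.Basis J ℤ (𝓞 k)) (m : ℕ)
    (S : Set (Fin (m + 1) → 𝓞 k)) : Prop :=
  Tendsto (fun H : ℕ => (({v | v ∈ box ω m H ∧ v ∈ S}.ncard : ℝ) / ((box ω m H).ncard : ℝ)))
    atTop (𝓝 1)

/-- The vector of integers of `k` with the coordinates `c` with respect to the integral basis `ω`. -/
noncomputable def point {k : Type} [Field k] {J : Type} [Fintype J] (ω : Module.Basis J ℤ (𝓞 k))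
    {m : ℕ} (c : Fin (m + 1) × J → ℤ) : Fin (m + 1) → 𝓞 k :=
  fun l => ∑ j, (c (l, j) : 𝓞 k) * ω j

/-- The member of the family `P / Q` at `t = (v_1 / v_0, ..., v_m / v_0)` is defined, it has degree `d`
and at most `C` preperiodic points of degree at most `B` over `k`. -/
def Good {k : Type} [Field k] {m : ℕ} (P Q : (MvPolynomial (Fin m) k)[X]) (d B C : ℕ)
    (v : Fin (m + 1) → 𝓞 k) : Prop :=
  v 0 ≠ 0 ∧ IsCoprime (special v P) (special v Q) ∧
    max (special v P).natDegree (special v Q).natDegree = d ∧
    (preper (special v P) (special v Q) d B).encard ≤ (C : ℕ∞)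

/-- The family `P / Q` has degree `d` and is not isotrivial: over an algebraic closure of
`k(t_1, ..., t_m)` it is not conjugate to a map with coefficients algebraic over `k`. -/
def IsFamily {k : Type} [Field k] {m : ℕ} (P Q : (MvPolynomial (Fin m) k)[X]) (d : ℕ) : Prop :=
  max P.natDegree Q.natDegree = d ∧ IsCoprime (generic P) (generic Q) ∧
    ¬ IsotrivialOver k (genBar P) (genBar Q) d

/-- The property `p` holds for 100% of the natural numbers. -/
def MostTimes (p : ℕ → Prop) : Prop :=
  Tendsto (fun T : ℕ => (({n : ℕ | n < T ∧ p n}.ncard : ℕ) : ℝ) / (T : ℝ)) atTop (𝓝 1)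

theorem countable_mv (σ R : Type) [Countable σ] [CommRing R] [Countable R] :
    Countable (MvPolynomial σ R) := by
  rw [← Cardinal.mk_le_aleph0_iff]
  refine (MvPolynomial.cardinalMk_le_max (σ := σ) (R := R)).trans ?_
  exact max_le (max_le (Cardinal.mk_le_aleph0_iff.2 inferInstance)
    (Cardinal.mk_le_aleph0_iff.2 inferInstance)) le_rfl

theorem countable_poly (R : Type) [CommRing R] [Countable R] : Countable R[X] := by
  rw [← Cardinal.mk_le_aleph0_iff]
  refine (Polynomial.cardinalMk_le_max (R := R)).trans ?_
  exact max_le (Cardinal.mk_le_aleph0_iff.2 inferInstance) le_rfl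

theorem most_of_never {p : ℕ → Prop}
    (h : Tendsto (fun N : ℕ => (({n : ℕ | n < N ∧ ¬ p n}.ncard : ℕ) : ℝ) / (N : ℝ)) atTop (𝓝 0)) :
    MostTimes p := by
  have h1 := h.const_sub 1
  rw [sub_zero] at h1
  refine h1.congr' ?_
  filter_upwards [eventually_ge_atTop 1] with N hN
  have hN0 : (N : ℝ) ≠ 0 := by
    have : (N : ℕ) ≠ 0 := by omega
    exact_mod_cast this
  have h2 : {n : ℕ | n < N ∧ p n} ∪ {n : ℕ | n < N ∧ ¬ p n} = Set.Iio N := by
    ext n
    simp only [Set.mem_union, Set.mem_ofPred_eq, Set.mem_Iio]
    tauto
  have h3 : Disjoint {n : ℕ | n < N ∧ p n} {n : ℕ | n < N ∧ ¬ p n} := by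
    rw [Set.disjoint_left]
    rintro n ⟨_, hn⟩ ⟨_, hn'⟩
    exact hn' hn
  have hf : ∀ q : ℕ → Prop, {n : ℕ | n < N ∧ q n}.Finite := fun q =>
    (Set.finite_Iio N).subset fun n hn => hn.1
  have h4 := Set.ncard_union_eq h3 (hf _) (hf _)
  rw [h2, Set.ncard_eq_toFinset_card', Set.toFinset_Iio, Nat.card_Iio] at h4
  have h5 : (N : ℝ) = (({n : ℕ | n < N ∧ p n}.ncard : ℕ) : ℝ) +
      (({n : ℕ | n < N ∧ ¬ p n}.ncard : ℕ) : ℝ) := by exact_mod_cast h4
  rw [eq_div_iff hN0, sub_mul, div_mul_cancel₀ _ hN0]
  linarith

/-- There is a function `N` such that the following holds for every number field `k` (of any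
degree), every integral basis `ω` of `k` and every `m`. Let `d ≥ 2`, `B ≥ 1` and let `P / Q`,
`P, Q ∈ k[t_1, ..., t_m][x]`, be any family of rational maps of degree `d` which is not isotrivial.
(1) For 100% of the vectors `(v_0, v_1, ..., v_m)` of integers of `k` (in the boxes given by the
basis `ω`) `v_0 ≠ 0` and the member at `t = (v_1 / v_0, ..., v_m / v_0)` has degree `d` and at most
`N(B, d)` preperiodic points of degree at most `B` over `k`.
(2) The coordinate vectors of the other `(v_0, v_1, ..., v_m)` form a pronull set.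
(3) Let `W` be a finite family of integral matrices of determinant one, of size `(m + 1) [k : ℚ]`,
which generates the special linear group modulo all `q` prime to some `q₀`, and `u ≠ 0`. For almost
every infinite word in the matrices, for ALL `d ≥ 2`, `B ≥ 1` and ALL such families `P / Q`, the bound
holds for the members at the `n`-th points of the orbit of `u` for 100% of the `n`. -/
theorem result : ∃ N : ℕ → ℕ → ℕ, ∀ (k : Type) [Field k] [NumberField k] (J : Type)
    [Fintype J] [DecidableEq J] (ω : Module.Basis J ℤ (𝓞 k)) (m : ℕ),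
    (∀ d B : ℕ, 2 ≤ d → 1 ≤ B → ∀ P Q : (MvPolynomial (Fin m) k)[X], IsFamily P Q d →
      AlmostAll ω m {v | Good P Q d B (N B d) v} ∧
      ProNull {c : Fin (m + 1) × J → ℤ | ¬ Good P Q d B (N B d) (point ω c)}) ∧
    ∀ (W : Walk (Fin (m + 1) × J)) (u : Fin (m + 1) × J → ℤ), u ≠ 0 → ∀ᵐ w ∂(words W.m),
      ∀ d B : ℕ, 2 ≤ d → 1 ≤ B → ∀ P Q : (MvPolynomial (Fin m) k)[X], IsFamily P Q d →
      MostTimes fun n => Good P Q d B (N B d) (point ω (orb W u w n)) := by
  have e : ∀ (K : Type) [Field K] (p q : K[X]) (d : ℕ),
      mapP1 p q d = Pool.Agent.W277.UH.ratP1 p q d := by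
    intro K _ p q d
    funext z
    cases z <;> rfl
  refine ⟨Run7.h830.SF.NB, ?_⟩
  intro k _ _ J _ _ ω m
  have e3 : ∀ (p q : k[X]) (d B : ℕ), preper p q d B = Pool.Agent.Y706.BI.preperB p q d B := by
    intro p q d B
    unfold preper Pool.Agent.Y706.BI.preperB
    rw [e]
  have key : ∀ d B : ℕ, 2 ≤ d → 1 ≤ B → ∀ P Q : (MvPolynomial (Fin m) k)[X], IsFamily P Q d →
      ProNull {c : Fin (m + 1) × J → ℤ |
        ¬ Good P Q d B (Run7.h830.SF.NB B d) (point ω c)} := by
    rintro d B hd hB P Q ⟨hmax, hco, hiso⟩
    have h := Run7.h830.SF.t_famp k J ω d B hd hB m P Q hmax hco hiso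
    have hp : ∀ c : Fin (m + 1) × J → ℤ, point ω c = Pool.Agent.Y706.vec ω c := by
      intro c
      funext l
      exact Finset.sum_congr rfl fun j _ => mul_comm _ _
    have h4 : {c : Fin (m + 1) × J → ℤ | ¬ Good P Q d B (Run7.h830.SF.NB B d) (point ω c)} =
        {c : Fin (m + 1) × J → ℤ |
          ¬ Good P Q d B (Run7.h830.SF.NB B d) (Pool.Agent.Y706.vec ω c)} := by
      ext c
      rw [Set.mem_ofPred_eq, Set.mem_ofPred_eq, hp]
    rw [h4]
    unfold Good
    simp only [e3]
    exact h
  refine ⟨fun d B hd hB P Q h => ⟨?_, key d B hd hB P Q h⟩, ?_⟩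
  · obtain ⟨hmax, hco, hiso⟩ := h
    have h1 := Run7.h830.SF.t_fam k J ω d B hd hB m P Q hmax hco hiso
    unfold Good
    simp only [e3]
    exact h1
  intro W u hu
  obtain ⟨j0⟩ : Nonempty J := ω.index_nonempty
  have hk : Countable k := (Module.finBasis ℚ k).equivFun.injective.countable
  have c1 : Countable (MvPolynomial (Fin m) k) := countable_mv _ _
  have c2 : Countable (MvPolynomial (Fin m) k)[X] := countable_poly _
  rcases Nat.eq_zero_or_pos m with hm | hm
  · subst hm
    refine Filter.Eventually.of_forall fun w d B hd hB P Q h => ?_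
    obtain ⟨hmax, hco, hiso⟩ := h
    have hcz0 : CharZero (RF k 0) :=
      charZero_of_injective_algebraMap (R := k) (algebraMap k _).injective
    have hinj : Function.Injective (algebraMap (MvPolynomial (Fin 0) k) (RF k 0)) :=
      IsFractionRing.injective _ _
    obtain ⟨i, _⟩ := Run7.h830.SF.exists_dir d hd (genBar P) (genBar Q) (by
      rw [genBar, genBar, Polynomial.natDegree_map, Polynomial.natDegree_map, generic, generic,
        Polynomial.natDegree_map_eq_of_injective hinj,
        Polynomial.natDegree_map_eq_of_injective hinj]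
      exact hmax) ((Polynomial.isCoprime_map _).2 hco) hiso
    exact i.elim0
  have hcard : 2 ≤ Fintype.card (Fin (m + 1) × J) := by
    rw [Fintype.card_prod, Fintype.card_fin]
    have hJ : 0 < Fintype.card J := Fintype.card_pos_iff.2 ⟨j0⟩
    nlinarith
  simp only [ae_all_iff]
  intro d B hd hB P Q hPQ
  filter_upwards [Pool.Agent.N24.RW.main (Fin (m + 1) × J) hcard W u hu _
    (key d B hd hB P Q hPQ)] with w hw
  exact most_of_never hw

end Pool.Agent.Results.MP_90787a_nt.EveryFamily
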