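import Pool.Agent.Run7.h197.X.Main

/-!
# Periodic points of `φ(z ^ d)` for large `d`: a bound independent of `d`, of `φ` and of the field

For all `D` there is `w` such that for all `n ≥ 1` there is `d₀` with the following property. Let `K` be ANY
number field of degree at most `D`, let `φ` be ANY rational function over `K` of ANY degree `e ≥ 1`, with good
reduction outside of a set `S` of `s` prime ideals, and let `d ≥ d₀` be such that `(8 n s) ^ n ≤ d ^ (n - 1)`,
i.e. `s ≤ d ^ (1 - 1 / n) / (8 n)`. Then the rational function `φ(z ^ d)` has at most

  `(2 s (16 s + 1) ^ (n - 1) + 1) w + 1`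

periodic points in `K`. The bound does not depend on `d`, `deg φ`, `φ` and `K`; it is a polynomial in the
number `s` of the places of bad reduction, for `s` up to `d ^ (1 - ε)` for any fixed `ε > 0`. (`w` is the largest
number of roots of unity of a number field of degree at most `D`.) So `n = 2` gives a bound for `s ≤ √d / 16`.

For instance, for all `φ` with good reduction everywhere, such as all monic polynomials with integral
coefficients, `φ(z ^ d)` has at most `w + 1` periodic points in `K`, for all `d ≥ d₀(D)`.

For all rational functions of degree `d` with a fixed number of places of bad reduction, the number of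
periodic points in `K` is known to be bounded, but the bound has to depend on the degree: by
interpolation, there are monic polynomials with integral coefficients and arbitrarily many integral fixed
points.

Proof. Let `x`, `y` be periodic points, `u = x / y` not a root of unity. Since `φ` and `z ^ d` do
not increase distances at the places of good reduction, the distances of `x ^ d`, `y ^ d` and of `x`, `y` are
equal there. So by the product formula for `u ^ d - 1` and `u - 1`, and by a lower bound for `u ^ d - 1`
at the archimedean places (linear forms in logarithms, uniformly in all number fields of degree at most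
`D`), the product over `S` of the distances of `u ^ d` and `1` is at most `H(u) ^ (- d / 2)`, and there is a `v`
in `S` at which the distance is at most `H(u) ^ (- d / (2 s))`. Elements `u_1, …, u_n` with heights in
`[√Z, Z]` and the same `v` are multiplicatively dependent: otherwise two of the more than `d` products
`u_1 ^ a_1 ⋯ u_n ^ a_n`, `0 ≤ a_i ≤ d ^ (1 / n)`, all of whose `d`-th powers are close to `1`, are congruent modulo
`v`, and the `d`-th power of their quotient `t`, which is close to `1` at `v`, has about the same distance from
`1` as `t`, which contradicts Liouville's inequality. So all these elements have rank at most `n - 1`, and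
their logarithmic images are far apart from each other in a space of dimension `n - 1`, since their
quotients are close to `1` at `v`; this bounds their number.
-/

set_option autoImplicit false

namespace Pool.Agent.Results.MP_90787a_nt.FunctionsOfPowers

open NumberField Polynomial IsDedekindDomain

/-- the binary form of degree `e` which belongs to the polynomial `p` of degree at most `e` -/
noncomputable def form {K : Type} [Field K] (e : ℕ) (p : K[X]) (v : K × K) : K :=
  ∑ i ∈ Finset.range (e + 1), p.coeff i * v.1 ^ i * v.2 ^ (e - i)

/-- the self-map `z ↦ φ(z ^ d)` of the projective line in homogeneous coordinates, where `φ = p / q` is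
a rational function of degree `e` -/
noncomputable def functionOfPower {K : Type} [Field K] (d e : ℕ) (p q : K[X]) (v : K × K) : K × K :=
  (form e p (v.1 ^ d, v.2 ^ d), form e q (v.1 ^ d, v.2 ^ d))

/-- the periodic points of `φ(z ^ d)` in `K`: the elements `x` of `K` such that the point with the homogeneous
coordinates `(x, 1)` is fixed by some iterate -/
def periodicPoints {K : Type} [Field K] (d e : ℕ) (p q : K[X]) : Set K :=
  {x | ∃ n : ℕ, 1 ≤ n ∧ ∃ c : K, c ≠ 0 ∧ (functionOfPower d e p q)^[n] (x, 1) = (c * x, c)}

/-- the rational function `p / q` of degree `e` has good reduction at `v`: after multiplication with a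
common factor, `p` and `q` have `v`-integral coefficients and their resultant (as forms of degree `e`) is a
unit at `v` -/
def GoodReduction {K : Type} [Field K] [NumberField K] (v : HeightOneSpectrum (𝓞 K)) (e : ℕ)
    (p q : K[X]) : Prop :=
  ∃ c : K, c ≠ 0 ∧ (∀ i, FinitePlace.mk v (c * p.coeff i) ≤ 1) ∧
    (∀ i, FinitePlace.mk v (c * q.coeff i) ≤ 1) ∧
    FinitePlace.mk v ((C c * p).resultant (C c * q) e e) = 1

/-- **periodic points of rational functions of `z ^ d`** -/
theorem result (D : ℕ) : ∃ w : ℕ, ∀ n : ℕ, 1 ≤ n → ∃ d₀ : ℕ, ∀ (K : Type) [Field K] [NumberField K],
    Module.finrank ℚ K ≤ D → ∀ (S : Finset (HeightOneSpectrum (𝓞 K))) (d e : ℕ) (p q : K[X]),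
    d₀ ≤ d → (8 * n * S.card) ^ n ≤ d ^ (n - 1) → 1 ≤ e → p.natDegree ≤ e → q.natDegree ≤ e →
    (∀ v ∉ S, GoodReduction v e p q) →
    (periodicPoints d e p q).encard ≤
      ((2 * (S.card * (16 * S.card + 1) ^ (n - 1)) + 1) * w + 1 : ℕ) := by
  obtain ⟨w, hw⟩ := Run7.h197.X.main D
  refine ⟨w, fun n hn => ?_⟩
  obtain ⟨d₀, hd₀⟩ := hw n hn
  exact ⟨d₀, fun K _ _ hK S d e p q hd hS he hp hq hgood =>
    hd₀ K hK S d hd hS e p q he hp hq hgood⟩

end Pool.Agent.Results.MP_90787a_nt.FunctionsOfPowers
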