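import Pool.Agent.Run7.h316.DN.Fam

/-!
# Every non-isotrivial family of rational maps at prime parameters, along all dominated families of parameters and along
# metric and random sequences

Let `k` be a number field with an integral basis `(ω_j)`, and `P / Q`, `P, Q ∈ k[t_1, …, t_m][x]`, a family of rational
maps of degree `d ≥ 2` which is not isotrivial: over an algebraic closure of `k(t_1, …, t_m)` it is not conjugate to a map
with coefficients algebraic over `k`. To a vector `x` of integers `x_{l j}`, `l = 0, …, m`, belongs the vector of the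
integers `v_l = ∑_j x_{l j} ω_j` of `k`, and the member of the family at `t = (v_1 / v_0, …, v_m / v_0)`.

The hand-in `EveryFamily` of this page (helper830) shows that there is a function `N` such that for 100% of the `x` in
boxes the member has degree `d` and at most `N(B, d)` preperiodic points of degree at most `B` over `k`, and the same along
random orbits; the starting files have this for special families.

Let `x w`, `w ∈ Ω`, be a family of vectors and `S M ⊂ Ω` finite sets; `Usually`: for ALL `d ≥ 2`, `B ≥ 1` and ALL
non-isotrivial families `P / Q` of degree `d` with `m` parameters over `k` the proportion of the `w ∈ S M` for which the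
member at `t = (v_1 / v_0, …, v_m / v_0)` is not defined, has not degree `d` or has more than `N(B, d)` preperiodic points
of degree at most `B` over `k` tends to zero, `M → ∞`.

**Theorem.** There is a function `N` such that for all `k`, `(ω_j)` and `m` the property `Usually` is robust
(`Pool.Agent.Run7.h316.EQ.Robust`):

(1) All dominated families have it: there are `C`, `A`, `D` such that for all squarefree `q` prime to `D` at most the
proportion `C (q / φ(q)) ^ A q ^ (-ρ) + o(1)` of the vectors is in a given class modulo `q`, where `ρ` is the number of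
the coordinates. (All equidistributed sequences are dominated, along arbitrary sets of times, and all their subfamilies of
positive lower density.)
(2) - (4) Metric sequences: `(⌊f_{i,n}(x_i)⌋)_i` for Koksma sequences `f_{i,0}, f_{i,1}, …`, `(⌊a_{i,n} x_i⌋)_i` for
arbitrary sequences of different integers (or of real numbers with a gap) and `(⌊ξ_i x_i ^ (k_n)⌋)_i`, for almost all
`x`.
(5) Random orbits of groups of integral matrices of determinant one which generate `SL(ℤ/q)` for all `q` prime to some
number.
(6) Generalised polynomials `(⌊∑_t a_{i,t} n ^ t⌋)_i` at the integers and at the primes `n` of `(M, 2M]`.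
(7) PRIME PARAMETERS: the vectors of prime numbers `≤ M`. For example for 100% of the pairs of primes `p, ℓ ≤ M` the
member at `t = p / ℓ` of every non-isotrivial family with one parameter over `ℚ` has at most `N(1, d)` rational
preperiodic points.

Proof. The bound for the generic member is due to helper830 and to the authors of `Pool.Agent.Q103.FS` (starting files).
The transfer to the members holds for all densities with Hilbert's irreducibility theorem (`Pool.Agent.N455.TX`,
helper455, after `Pool.Agent.Y706`). **Thin sets are very null** (`Pool.Agent.Run7.h316.DN.hit_very`): for all `D`,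
`η > 1` and `ε > 0` there is a squarefree number `q` prime to `D` with `q ≤ η φ(q)` such that at most the proportion `ε`
of the classes modulo `q` contain elements of a given thin set. So every dominated family gives such a density, although
the vectors of primes are not equidistributed modulo any integer. The exceptional sets are countably many and pronull:
`Pool.Agent.N24.KM` (helpers 24, 344, 617, 199, 764, 432, 286), `Pool.Agent.N24.RW` (helpers 24, 123, 195, 300, 543,
765); generalised polynomials: `Pool.Agent.N666.TM` (helper666); `Pool.Agent.N918.EQ` (helper918); primes: the prime number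
theorem for arithmetic progressions (helper923). The definitions are repeated from `EveryFamily`.
-/

set_option autoImplicit false

namespace Pool.Agent.Results.MP_90787a_nt.PrimeParameters

open Polynomial NumberField
open Pool.Agent.Run7.h316.EQ Pool.Agent.Run7.h316.DN

/-- The self-map of the projective line `K ∪ {∞}`, where `none` is `∞`, given by the rational
function `p / q`, where `p` and `q` are coprime and `d` is the larger of their degrees: it sends
`x` to `p(x) / q(x)`, or to `∞` when `q(x) = 0`, and it sends `∞` to the quotient of the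
coefficients of degree `d`, or to `∞` when that of `q` is zero. -/
noncomputable def mapP1 {K : Type*} [Field K] (p q : K[X]) (d : ℕ) : Option K → Option K
  | some x => by classical exact if q.eval x = 0 then none else some (p.eval x / q.eval x)
  | none => by classical exact if q.coeff d = 0 then none else some (p.coeff d / q.coeff d)

/-- With `φ(x) = (a x + b) / (c x + e)`, the map `p / q` of degree `d` satisfies
`φ ∘ (p / q) = (u / w) ∘ φ` for some `a, b, c, e` in `K` with `a e ≠ b c` and some polynomials
`u, w` of degree at most `d`, not both zero, with coefficients algebraic over `F`; the equation is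
written with denominators cleared. -/
def IsotrivialOver (F : Type*) {K : Type*} [Field F] [Field K] [Algebra F K] (p q : K[X])
    (d : ℕ) : Prop :=
  ∃ a b c e : K, a * e - b * c ≠ 0 ∧ ∃ u w : K[X], (u ≠ 0 ∨ w ≠ 0) ∧
    u.natDegree ≤ d ∧ w.natDegree ≤ d ∧ (∀ n, IsAlgebraic F (u.coeff n)) ∧
    (∀ n, IsAlgebraic F (w.coeff n)) ∧
    (C a * p + C b * q) * ∑ i ∈ Finset.range (d + 1),
      C (w.coeff i) * (C a * X + C b) ^ i * (C c * X + C e) ^ (d - i) =
    (C c * p + C e * q) * ∑ i ∈ Finset.range (d + 1),
      C (u.coeff i) * (C a * X + C b) ^ i * (C c * X + C e) ^ (d - i)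

/-- The field `k(t_1, ..., t_m)`. -/
abbrev RF (k : Type) [Field k] (m : ℕ) : Type := FractionRing (MvPolynomial (Fin m) k)

/-- `P ∈ k[t_1, ..., t_m][x]` as a polynomial over `k(t_1, ..., t_m)`. -/
noncomputable def generic {k : Type} [Field k] {m : ℕ} (P : (MvPolynomial (Fin m) k)[X]) :
    (RF k m)[X] :=
  P.map (algebraMap (MvPolynomial (Fin m) k) (RF k m))

/-- `P ∈ k[t_1, ..., t_m][x]` as a polynomial over an algebraic closure of `k(t_1, ..., t_m)`. -/
noncomputable def genBar {k : Type} [Field k] {m : ℕ} (P : (MvPolynomial (Fin m) k)[X]) :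
    (AlgebraicClosure (RF k m))[X] :=
  (generic P).map (algebraMap (RF k m) (AlgebraicClosure (RF k m)))

/-- The specialisation of `P ∈ k[t_1, ..., t_m][x]` at `t = (v_1 / v_0, ..., v_m / v_0)`. -/
noncomputable def special {k : Type} [Field k] {m : ℕ} (v : Fin (m + 1) → 𝓞 k)
    (P : (MvPolynomial (Fin m) k)[X]) : k[X] :=
  P.map (MvPolynomial.eval fun l : Fin m =>
    algebraMap (𝓞 k) k (v l.succ) / algebraMap (𝓞 k) k (v 0))

/-- The preperiodic points of degree at most `B` over `k` of the map `p / q` of degree `d`, in the
projective line over an algebraic closure of `k`. -/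
noncomputable def preper {k : Type} [Field k] (p q : k[X]) (d B : ℕ) :
    Set (Option (AlgebraicClosure k)) :=
  {z | (Set.range fun n : ℕ => (mapP1 (p.map (algebraMap k (AlgebraicClosure k)))
      (q.map (algebraMap k (AlgebraicClosure k))) d)^[n] z).Finite ∧
    ∀ x, z = some x → (minpoly k x).natDegree ≤ B}

/-- The vector of integers of `k` with the coordinates `c` with respect to the integral basis `ω`. -/
noncomputable def point {k : Type} [Field k] {J : Type} [Fintype J] (ω : Module.Basis J ℤ (𝓞 k))
    {m : ℕ} (c : Fin (m + 1) × J → ℤ) : Fin (m + 1) → 𝓞 k :=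
  fun l => ∑ j, (c (l, j) : 𝓞 k) * ω j

/-- The member of the family `P / Q` at `t = (v_1 / v_0, ..., v_m / v_0)` is defined, it has degree `d`
and at most `C` preperiodic points of degree at most `B` over `k`. -/
def Good {k : Type} [Field k] {m : ℕ} (P Q : (MvPolynomial (Fin m) k)[X]) (d B C : ℕ)
    (v : Fin (m + 1) → 𝓞 k) : Prop :=
  v 0 ≠ 0 ∧ IsCoprime (special v P) (special v Q) ∧
    max (special v P).natDegree (special v Q).natDegree = d ∧
    (preper (special v P) (special v Q) d B).encard ≤ (C : ℕ∞)

/-- The family `P / Q` has degree `d` and is not isotrivial: over an algebraic closure of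
`k(t_1, ..., t_m)` it is not conjugate to a map with coefficients algebraic over `k`. -/
def IsFamily {k : Type} [Field k] {m : ℕ} (P Q : (MvPolynomial (Fin m) k)[X]) (d : ℕ) : Prop :=
  max P.natDegree Q.natDegree = d ∧ IsCoprime (generic P) (generic Q) ∧
    ¬ IsotrivialOver k (genBar P) (genBar Q) d

theorem countable_mv (σ R : Type) [Countable σ] [CommRing R] [Countable R] :
    Countable (MvPolynomial σ R) := by
  rw [← Cardinal.mk_le_aleph0_iff]
  refine (MvPolynomial.cardinalMk_le_max (σ := σ) (R := R)).trans ?_
  exact max_le (max_le (Cardinal.mk_le_aleph0_iff.2 inferInstance)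
    (Cardinal.mk_le_aleph0_iff.2 inferInstance)) le_rfl

theorem countable_poly (R : Type) [CommRing R] [Countable R] : Countable R[X] := by
  rw [← Cardinal.mk_le_aleph0_iff]
  refine (Polynomial.cardinalMk_le_max (R := R)).trans ?_
  exact max_le (Cardinal.mk_le_aleph0_iff.2 inferInstance) le_rfl

/-- For all `d ≥ 2`, `B ≥ 1` and all non-isotrivial families `P / Q` of degree `d` with `m` parameters over `k` the
proportion of the `w` in `S M` for which the member with the coordinates `x w` is not good (with at most `N B d` preperiodic
points of degree at most `B`) tends to zero, `M → ∞`. -/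
def Usually (N : ℕ → ℕ → ℕ) {k : Type} [Field k] [NumberField k] {J : Type} [Fintype J]
    (ω : Module.Basis J ℤ (𝓞 k)) (m : ℕ) (Ω : Type) (S : ℕ → Finset Ω)
    (x : Ω → Fin (m + 1) × J → ℤ) : Prop :=
  ∀ d B : ℕ, 2 ≤ d → 1 ≤ B → ∀ P Q : (MvPolynomial (Fin m) k)[X], IsFamily P Q d →
    ∀ ε : ℝ, 0 < ε → ∃ M₀ : ℕ, ∀ M : ℕ, M₀ ≤ M →
      (({w : Ω | w ∈ S M ∧ ¬ Good P Q d B (N B d) (point ω (x w))}.ncard : ℕ) : ℝ) ≤
        ε * (S M).card

/-- **Every non-isotrivial family of rational maps at prime parameters**, along all dominated families of parameters, metric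
sequences, random orbits and generalised polynomials. -/
theorem result : ∃ N : ℕ → ℕ → ℕ, ∀ (k : Type) [Field k] [NumberField k] (J : Type)
    [Fintype J] [DecidableEq J] (ω : Module.Basis J ℤ (𝓞 k)) (m : ℕ),
    Robust (Usually N ω m) := by
  have e : ∀ (K : Type) [Field K] (p q : K[X]) (d : ℕ),
      mapP1 p q d = Pool.Agent.W277.UH.ratP1 p q d := by
    intro K _ p q d
    funext z
    cases z <;> rfl
  refine ⟨Run7.h830.SF.NB, ?_⟩
  intro k _ _ J _ _ ω m
  have e3 : ∀ (p q : k[X]) (d B : ℕ), preper p q d B = Pool.Agent.Y706.BI.preperB p q d B := by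
    intro p q d B
    unfold preper Pool.Agent.Y706.BI.preperB
    rw [e]
  have key : ∀ d B : ℕ, 2 ≤ d → 1 ≤ B → ∀ P Q : (MvPolynomial (Fin m) k)[X], IsFamily P Q d →
      AllNull {c : Fin (m + 1) × J → ℤ |
        ¬ Good P Q d B (Run7.h830.SF.NB B d) (point ω c)} := by
    rintro d B hd hB P Q ⟨hmax, hco, hiso⟩
    have h := t_all k J ω d B hd hB m P Q hmax hco hiso
    have hp : ∀ c : Fin (m + 1) × J → ℤ, point ω c = Pool.Agent.Y706.vec ω c := by
      intro c
      funext l
      exact Finset.sum_congr rfl fun j _ => mul_comm _ _
    have h4 : {c : Fin (m + 1) × J → ℤ | ¬ Good P Q d B (Run7.h830.SF.NB B d) (point ω c)} =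
        {c : Fin (m + 1) × J → ℤ |
          ¬ Good P Q d B (Run7.h830.SF.NB B d) (Pool.Agent.Y706.vec ω c)} := by
      ext c
      rw [Set.mem_ofPred_eq, Set.mem_ofPred_eq, hp]
    rw [h4]
    unfold Good
    simp only [e3]
    exact h
  obtain ⟨j0⟩ : Nonempty J := ω.index_nonempty
  have hne : Nonempty (Fin (m + 1) × J) := ⟨(0, j0)⟩
  have hk : Countable k := (Module.finBasis ℚ k).equivFun.injective.countable
  have c1 : Countable (MvPolynomial (Fin m) k) := countable_mv _ _
  have c2 : Countable (MvPolynomial (Fin m) k)[X] := countable_poly _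
  refine robust_all (I := {q : (ℕ × ℕ) × ((MvPolynomial (Fin m) k)[X] × (MvPolynomial (Fin m) k)[X]) //
      (2 ≤ q.1.1 ∧ 1 ≤ q.1.2) ∧ IsFamily q.2.1 q.2.2 q.1.1})
    (fun i => {c : Fin (m + 1) × J → ℤ |
      ¬ Good i.1.2.1 i.1.2.2 i.1.1.1 i.1.1.2 (Run7.h830.SF.NB i.1.1.2 i.1.1.1) (point ω c)})
    (fun i => key _ _ i.2.1.1 i.2.1.2 _ _ i.2.2) _ ?_
  intro Ω S x hR d B hd hB P Q hPQ
  exact hR ⟨((d, B), (P, Q)), ⟨hd, hB⟩, hPQ⟩

end Pool.Agent.Results.MP_90787a_nt.PrimeParameters
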